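import Pool.Agent.Helper93.FRM.Fam
import Pool.Agent.Helper84.MT.Pul

/-! # FIBRE PRODUCTS of an event of an extension and of an extension of its image

`exists_fib` : `p : T → S` an extension, `B` an event of `T`, `p' : T' → Sp.im p B`, `A'` an event of `T'`. There is an
extension `q : U → Sp.im (Pj.id T) B` of the event `B`, with an event `A`, whose law is mapped to the law of
`Sp.im p' A'` by `p.π`. -/

set_option autoImplicit false

namespace Pool.Agent.Helper61.NJ

open Finset Filter Topology Matrix Pool.Agent.Helper69.RK Pool.Agent.Helper31.EC Pool.Agent.Helper31.EC.Sp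
open Pool.Agent.Helper40.EL Pool.Agent.Helper84.MT

noncomputable section

variable {S T T' : Sp}

theorem push_congr_supp {Ω Ω' : Type} [Fintype Ω'] (π π' : Ω' → Ω) (ν : Ω' → ℝ) (h : ∀ x, ν x ≠ 0 → π x = π' x) :
    push π ν = push π' ν := by
  funext ω
  rw [push_ind, push_ind]
  refine Finset.sum_congr rfl fun x _ => ?_
  by_cases h1 : ν x = 0
  · rw [h1, mul_zero, mul_zero]
  · rw [h x h1]

/-- the event as an extension of its image -/
def fL0 (p : Pj T S) (B : ∀ k, (T.F k).Ω → Prop) (k : ℕ) : FLab ((Sp.im p B).F k) where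
  T := (Sp.im (Pj.id T) B).F k
  p := {
    π := p.π k
    law := by
      have h1 : push (fun w => p.π k ((fun ω => ω) w)) ((T.F k).restμ (B k)) =
          push (p.π k) (push (fun ω => ω) ((T.F k).restμ (B k))) := push_comp _ _ _
      exact h1.symm
    hZ := fun ω ω' h h' => (p.fp k).hZ ω ω' (FSp.im_supp ((Pj.id T).fp k) (B k) ω h)
      (FSp.im_supp ((Pj.id T).fp k) (B k) ω' h') }
  hn := p.hn k
  V := ⊤

/-- an extension as a label -/
def fL1 {S : Sp} {T' : Sp} (p' : Pj T' S) (k : ℕ) : FLab (S.F k) where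
  T := T'.F k
  p := p'.fp k
  hn := p'.hn k
  V := ⊤

theorem exists_fib (p : Pj T S) (B : ∀ k, (T.F k).Ω → Prop) (p' : Pj T' (Sp.im p B)) (A' : ∀ k, (T'.F k).Ω → Prop) :
    ∃ (U : Sp) (q : Pj U (Sp.im (Pj.id T) B)) (A : ∀ k, (U.F k).Ω → Prop), (∀ k, U.pr A k = T'.pr A' k) ∧
      ∀ k, push (p.π k) ((Sp.im q A).F k).μ = ((Sp.im p' A').F k).μ := by
  have h1 : ∀ k, ∃ (U : FSp) (q0 : FPj U ((Sp.im (Pj.id T) B).F k)) (q1 : FPj U (T'.F k)), U.n = (S.F k).n ∧
      ∀ w, U.μ w ≠ 0 → p.π k (q0.π w) = p'.π k (q1.π w) := by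
    intro k
    obtain ⟨U, r, hn, q, cm, -⟩ := Pool.Agent.Helper93.FRM.famp ((Sp.im p B).F k) 2 ![fL0 p B k, fL1 p' k]
    exact ⟨U, q 0, q 1, hn, fun w hw => (cm 0 w hw).trans (cm 1 w hw).symm⟩
  choose U q0 q1 hn cm using h1
  have hlim : Tendsto (fun k => (U k).n) UF atTop := S.lim.congr fun k => (hn k).symm
  refine ⟨⟨U, hlim⟩, ⟨fun k => (q0 k).π, fun k => (q0 k).law, fun k => (q0 k).hZ, fun k => ?_⟩,
    fun k w => A' k ((q1 k).π w), fun k => ?_, fun k => ?_⟩
  · exact (hn k).trans (p.hn k).symm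
  · exact (push_restμ (q1 k) (A' k)).2
  · have a1 : push (fun w => p.π k ((q0 k).π w)) ((U k).restμ fun w => A' k ((q1 k).π w)) =
        push (p.π k) (push (q0 k).π ((U k).restμ fun w => A' k ((q1 k).π w))) := push_comp _ _ _
    have a2 : push (fun w => p'.π k ((q1 k).π w)) ((U k).restμ fun w => A' k ((q1 k).π w)) =
        push (p'.π k) (push (q1 k).π ((U k).restμ fun w => A' k ((q1 k).π w))) := push_comp _ _ _
    have a3 : push (q1 k).π ((U k).restμ fun w => A' k ((q1 k).π w)) = (T'.F k).restμ (A' k) :=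
      (push_restμ (q1 k) (A' k)).1
    have a4 : push (fun w => p.π k ((q0 k).π w)) ((U k).restμ fun w => A' k ((q1 k).π w)) =
        push (fun w => p'.π k ((q1 k).π w)) ((U k).restμ fun w => A' k ((q1 k).π w)) := by
      refine push_congr_supp _ _ _ fun w hw => ?_
      exact cm k w ((U k).rest_supp _ w hw).1
    have a5 : push (p'.π k) (push (q1 k).π ((U k).restμ fun w => A' k ((q1 k).π w))) =
        push (p'.π k) ((T'.F k).restμ (A' k)) := congrArg (push (p'.π k)) a3
    exact a1.symm.trans (a4.trans (a2.trans a5))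

/-- the projection of the fibre product -/
def fibP (p : Pj T S) {B : ∀ k, (T.F k).Ω → Prop} {p' : Pj T' (Sp.im p B)} {A' : ∀ k, (T'.F k).Ω → Prop} {U : Sp}
    (q : Pj U (Sp.im (Pj.id T) B)) (A : ∀ k, (U.F k).Ω → Prop)
    (h : ∀ k, push (p.π k) ((Sp.im q A).F k).μ = ((Sp.im p' A').F k).μ) : Pj (Sp.im q A) (Sp.im p' A') where
  π := p.π
  law := h
  hZ := fun k ω ω' a b => (p.fp k).hZ ω ω' (FSp.im_supp ((Pj.id T).fp k) (B k) ω (FSp.im_supp (q.fp k) (A k) ω a))
    (FSp.im_supp ((Pj.id T).fp k) (B k) ω' (FSp.im_supp (q.fp k) (A k) ω' b))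
  hn := p.hn

/-- the projection of an event to its image -/
def evP (p : Pj T S) (B : ∀ k, (T.F k).Ω → Prop) : Pj (Sp.im (Pj.id T) B) (Sp.im p B) where
  π := p.π
  law := fun k => (fL0 p B k).p.law
  hZ := fun k => (fL0 p B k).p.hZ
  hn := p.hn

end

end Pool.Agent.Helper61.NJ
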