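import Pool.Agent.Helper93.LVL.Evt
import Pool.Agent.Helper76.LVL.Lvb
import Pool.Agent.Helper84.KR.Rate2
import Pool.Agent.Helper61.NJ.Fib
import Pool.Agent.Helper61.SEL.Exk
import Pool.Agent.Helper52.MW.Ime
import Pool.Agent.Helper87.NJ.St

/-! # PROFILES OF FULL ROWS, row CLB of NSLJ

`V` with full rows `RowsF V Q D E f w` (helper76): the entropy of the cells of level `b` over `V` is the mean of
`v b + Σ_j (b - w_j)_+`, on all events of all extensions (`hr_rows`, `prf`).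
`typ_of_mean` : lower bounds of the means on all events are typical bounds; `mean_of_typ` : the converse.
`row_clb` : if no event has the slope `κ + 1` after the level `ρ`, the slope at `ρ` is at most `κ + δ`. -/

set_option autoImplicit false
set_option linter.unusedSectionVars false

namespace Pool.Agent.Helper61.NJ

open Finset Filter Topology Matrix Pool.Agent.Helper69.RK Pool.Agent.Helper31.EC Pool.Agent.Helper31.EC.Sp
open Pool.Agent.Helper40.EL Pool.Agent.Helper89.LX Pool.Agent.Helper3.LF Pool.Agent.Helper84.MT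
open Pool.Agent.Helper76.ADP (RowsF)
open Pool.Agent.Helper84.KR (H_up1_ofZ)
open Pool.Agent.Helper93.LVL (lvl_lo rowsF_im)
open Pool.Agent.Helper76.LVL (lvl_le)
open Pool.Agent.Helper61.SEL (im_ev)

noncomputable section

variable {S T : Sp} {M v q D : ℕ}

/-- entropies of cells over a literal label -/
theorem H_hr (V : ∀ k, Setoid (S.F k).Ω) (Q : S.VV M) (b : ℝ) :
    H (up1 (Lab.ofZ V) (Q.dg b)) = hr (fun k => fc (Setoid.ker (Q.cellv b k))) (fun k => fc (V k)) := by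
  rw [H_up1_ofZ]
  have e1 : Q.dg b = Sp.cl (Q.bdd b).toInf := io_eq (Q.bdd b)
  rw [e1]
  have h1 := rp_rpI (Q.bdd b).toInf
  have h2 : hr (rp (Sp.cl (Q.bdd b).toInf)) (fun k => fc (V k)) = hr (rpI (Q.bdd b).toInf) (fun k => fc (V k)) :=
    le_antisymm (hr_mono (rp_Bd _) (rpI_Bd _) h1.1) (hr_mono (rpI_Bd _) (rp_Bd _) h1.2)
  exact h2

/-- the exponent of the cells of level `b` -/
def sg (v : ℕ) (w : ∀ k, (S.F k).Ω → Fin q → ℝ) (b : ℝ) (k : ℕ) (ω : (S.F k).Ω) : ℝ := v * b + ∑ j, max (b - w k ω j) 0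

/-- the mean over a space -/
def mn (S : Sp) (g : ∀ k, (S.F k).Ω → ℝ) (k : ℕ) : ℝ := ∑ ω, (S.F k).μ ω * g k ω

theorem mn_le {g g' : ∀ k, (S.F k).Ω → ℝ} {k : ℕ} (h : ∀ ω, (S.F k).μ ω ≠ 0 → g k ω ≤ g' k ω) : mn S g k ≤ mn S g' k := by
  refine Finset.sum_le_sum fun ω _ => ?_
  by_cases h1 : (S.F k).μ ω = 0
  · rw [h1, zero_mul, zero_mul]
  · exact mul_le_mul_of_nonneg_left (h ω h1) ((S.F k).nn ω)

theorem mn_const (c : ℝ) (k : ℕ) : mn S (fun _ _ => c) k = c := by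
  unfold mn
  rw [← Finset.sum_mul]
  have h : ∑ ω, (S.F k).μ ω = 1 := (S.F k).ms
  rw [h, one_mul]

theorem mn_add (g g' : ∀ k, (S.F k).Ω → ℝ) (k : ℕ) : mn S (fun k ω => g k ω + g' k ω) k = mn S g k + mn S g' k := by
  unfold mn
  rw [← Finset.sum_add_distrib]
  exact Finset.sum_congr rfl fun ω _ => mul_add _ _ _

/-- the mean of an indicator -/
theorem mn_ind (A : ∀ k, (S.F k).Ω → Prop) [∀ k, DecidablePred (A k)] (c : ℝ) (k : ℕ) :
    mn S (fun k ω => if A k ω then c else 0) k = S.pr A k * c := by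
  have h1 : S.pr A k = ∑ ω, res (S.F k).μ (A k) ω := rfl
  rw [h1, Finset.sum_mul]
  refine Finset.sum_congr rfl fun ω _ => ?_
  show (S.F k).μ ω * (if A k ω then c else 0) = res (S.F k).μ (A k) ω * c
  by_cases h : A k ω
  · rw [if_pos h, res_pos _ _ _ h]
  · rw [if_neg h, res_neg _ _ _ h, mul_zero, zero_mul]

theorem UB_mn {g : ∀ k, (S.F k).Ω → ℝ} {C : ℝ} (h0 : ∀ᶠ k in UF, ∀ ω, (S.F k).μ ω ≠ 0 → 0 ≤ g k ω)
    (h1 : ∀ᶠ k in UF, ∀ ω, (S.F k).μ ω ≠ 0 → g k ω ≤ C) : UB (mn S g) := by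
  refine UB_of_nonneg_le (C := C) ?_ ?_
  · filter_upwards [h0] with k hk
    have := mn_le (g := fun _ _ => (0 : ℝ)) (g' := g) (k := k) hk
    rwa [mn_const] at this
  · filter_upwards [h1] with k hk
    have := mn_le (g := g) (g' := fun _ _ => C) (k := k) hk
    rwa [mn_const] at this

theorem sg_nonneg {w : ∀ k, (S.F k).Ω → Fin q → ℝ} {b : ℝ} (hb : 0 ≤ b) (k : ℕ) (ω : (S.F k).Ω) : 0 ≤ sg v w b k ω :=
  add_nonneg (mul_nonneg (Nat.cast_nonneg v) hb) (Finset.sum_nonneg fun _ _ => le_max_right _ _)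

theorem sg_le {w : ∀ k, (S.F k).Ω → Fin q → ℝ} (hw : ∀ᶠ k in UF, ∀ ω, (S.F k).μ ω ≠ 0 → ∀ j, 0 ≤ w k ω j ∧ w k ω j ≤ 1)
    {b : ℝ} (hb1 : b ≤ 1) : ∀ᶠ k in UF, ∀ ω, (S.F k).μ ω ≠ 0 → sg v w b k ω ≤ v + q := by
  filter_upwards [hw] with k hk ω hω
  have h1 : ∑ j, max (b - w k ω j) 0 ≤ q := by
    refine (Finset.sum_le_card_nsmul _ _ 1 fun j _ => max_le ?_ zero_le_one).trans (le_of_eq ?_)
    · have := (hk ω hω j).1
      linarith
    · rw [Finset.card_univ, Fintype.card_fin, nsmul_eq_mul, mul_one]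
  have h2 : (v : ℝ) * b ≤ v := mul_le_of_le_one_right (Nat.cast_nonneg v) hb1
  unfold sg
  linarith

theorem UB_sg {w : ∀ k, (S.F k).Ω → Fin q → ℝ} (hw : ∀ᶠ k in UF, ∀ ω, (S.F k).μ ω ≠ 0 → ∀ j, 0 ≤ w k ω j ∧ w k ω j ≤ 1)
    {b : ℝ} (hb : 0 ≤ b) (hb1 : b ≤ 1) : UB (mn S (sg v w b)) :=
  UB_mn (Eventually.of_forall fun k ω _ => sg_nonneg hb k ω) (sg_le hw hb1)

/-- **THE PROFILE OF FULL ROWS** -/
theorem hr_rows (hvq : v + q = M) (hD : 1 ≤ D) {V : ∀ k, Setoid (S.F k).Ω} {Q : S.VV M}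
    {E : ∀ k, (S.F k).Ω → (Fin v ⊕ Fin q ≃ Fin M)} {f : ∀ k, (S.F k).Ω → Fin q → MvPolynomial (Fin M) ℝ}
    {w : ∀ k, (S.F k).Ω → Fin q → ℝ} (x : RowsF V Q D E f w) {b : ℝ} (hb0 : 0 ≤ b) (hb1 : b ≤ 1) :
    hr (fun k => fc (Setoid.ker (Q.cellv b k))) (fun k => fc (V k)) = ul (mn S (sg v w b)) := by
  have hU := UB_sg (v := v) x.w01 hb0 hb1
  have hB : Part.Bd (S := S) (fun k => fc (Setoid.ker (Q.cellv b k))) := rpI_Bd (Q.bdd b).toInf
  have hU2 := hB.ub (fun k => fc (V k))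
  have hmn : ∀ k, mn S (sg v w b) k = v * b + ∑ ω, (S.F k).μ ω * ∑ j, max (b - w k ω j) 0 := fun k => by
    have h1 := mn_add (S := S) (fun _ _ => (v : ℝ) * b) (fun k ω => ∑ j, max (b - w k ω j) 0) k
    rw [mn_const] at h1
    exact h1
  apply le_antisymm
  · apply le_of_forall_pos_le_add
    intro ε hε
    rw [← ul_const ε, ← ul_add hU (UB_const ε)]
    refine ul_mono hU2 (hU.add (UB_const ε)) ?_
    filter_upwards [lvl_le hvq hD x hb0 hb1 ε hε] with k hk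
    rw [div_le_iff₀ (S.F k).pos, h_fc, hmn k]
    exact hk
  · apply le_of_forall_pos_le_add
    intro ε hε
    have e1 : hr (fun k => fc (Setoid.ker (Q.cellv b k))) (fun k => fc (V k)) =
      ul (fun k => Helper31.EC.h (fc (Setoid.ker (Q.cellv b k))) (fc (V k)) / (S.F k).n) := rfl
    rw [e1, ← ul_const ε, ← ul_add hU2 (UB_const ε)]
    refine ul_mono hU (hU2.add (UB_const ε)) ?_
    filter_upwards [lvl_lo hvq hD x hb0 hb1 hε] with k hk
    rw [← hmn k] at hk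
    have h1 : mn S (sg v w b) k - ε ≤ (S.F k).e (Setoid.ker (Q.cellv b k)) (V k ⊓ (S.F k).Z) / (S.F k).n := by
      rw [le_div_iff₀ (S.F k).pos]
      exact hk
    rw [h_fc]
    linarith

/-- the profile over a projection -/
theorem prf {X Y : Sp} (π : Pj X Y) {Q : Y.VV M} {V : ∀ k, Setoid (Y.F k).Ω} {W : ∀ k, Setoid (X.F k).Ω}
    (h1 : ∀ k, W k ≤ π.pb V k) (h2 : PLe (S := X) (fun k => fc (W k)) (fun k => fc (π.pb V k)))
    (hvq : v + q = M) (hD : 1 ≤ D) {E : ∀ k, (X.F k).Ω → (Fin v ⊕ Fin q ≃ Fin M)}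
    {f : ∀ k, (X.F k).Ω → Fin q → MvPolynomial (Fin M) ℝ} {w : ∀ k, (X.F k).Ω → Fin q → ℝ}
    (x : RowsF W (π.vv Q) D E f w) {b : ℝ} (hb : 0 ≤ b) (hb1 : b ≤ 1) :
    H (up1 (Lab.ofZ V) (Q.dg b)) = ul (mn X (sg v w b)) := by
  rw [H_hr, ← hr_rows hvq hD x hb hb1]
  have hB : Part.Bd (S := X) (fun k => fc (Setoid.ker ((π.vv Q).cellv b k))) := rpI_Bd ((π.vv Q).bdd b).toInf
  have h3 : hr (S := Y) (fun k => fc (Setoid.ker (Q.cellv b k))) (fun k => fc (V k)) =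
      hr (S := X) (fun k => fc (Setoid.ker ((π.vv Q).cellv b k))) (fun k => fc (π.pb V k)) := by
    refine ul_congr (Eventually.of_forall fun k => ?_)
    show Helper31.EC.h (fc (Setoid.ker (Q.cellv b k))) (fc (V k)) / (Y.F k).n =
      Helper31.EC.h (fc (Setoid.ker ((π.vv Q).cellv b k))) (fc (π.pb V k)) / (X.F k).n
    rw [h_fc, h_fc, vv_cellv]
    exact (π.rt_pb (fun k => Setoid.ker (Q.cellv b k)) V k).symm
  rw [h3]
  refine le_antisymm (hr_anti hB h2) (hr_anti hB ?_)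
  have h4 : (fun k => Helper31.EC.h (fc (π.pb V k)) (fc (W k)) : ℕ → ℝ) = fun _ => 0 := by
    funext k
    exact h_zero (fc_mono (h1 k))
  show Nul X fun k => Helper31.EC.h (fc (π.pb V k)) (fc (W k))
  rw [h4]
  exact Nul_zero X

/-- a typical lower bound bounds the mean -/
theorem mean_of_typ {g : ∀ k, (S.F k).Ω → ℝ} {c C : ℝ} (h0 : ∀ᶠ k in UF, ∀ ω, (S.F k).μ ω ≠ 0 → 0 ≤ g k ω)
    (h1 : ∀ᶠ k in UF, ∀ ω, (S.F k).μ ω ≠ 0 → g k ω ≤ C) (h : ∀ ε : ℝ, 0 < ε → Typ fun k ω => c - ε ≤ g k ω) :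
    c ≤ ul (mn S g) := by
  classical
  apply le_of_forall_pos_le_add
  intro ε hε
  have hA := h ε hε
  have hU := UB_mn h0 h1
  have hU2 := UB_pr (S := S) fun k ω => ¬ c - ε ≤ g k ω
  have h2 : ul (S.pr fun k ω => ¬ c - ε ≤ g k ω) = 0 := ul_eq hA
  have h3 : c - ε ≤ ul (fun k => mn S g k + S.pr (fun k ω => ¬ c - ε ≤ g k ω) k * (|c| + ε)) := by
    refine const_le_ul (hU.add (hU2.mul (UB_const _))) ?_
    filter_upwards [h0] with k hk
    rw [← mn_ind (S := S) (fun k ω => ¬ c - ε ≤ g k ω) (|c| + ε) k, ← mn_add]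
    refine (mn_const (S := S) (c - ε) k).symm.le.trans (mn_le fun ω hω => ?_)
    have h5 := hk ω hω
    have h6 := le_abs_self c
    by_cases h7 : c - ε ≤ g k ω
    · rw [if_neg (not_not.mpr h7), add_zero]
      exact h7
    · rw [if_pos h7]
      linarith
  rw [ul_add hU (hU2.mul (UB_const _)), ul_mul hU2 (UB_const _), h2, zero_mul, add_zero] at h3
  linarith

/-- lower bounds of the means on all events are typical lower bounds -/
theorem typ_of_mean {g : ∀ k, (S.F k).Ω → ℝ} {c C : ℝ} (h0 : ∀ᶠ k in UF, ∀ ω, (S.F k).μ ω ≠ 0 → 0 ≤ g k ω)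
    (h1 : ∀ᶠ k in UF, ∀ ω, (S.F k).μ ω ≠ 0 → g k ω ≤ C)
    (h : ∀ B : ∀ k, (S.F k).Ω → Prop, 0 < ul (S.pr B) → c ≤ ul (mn (Sp.im (Pj.id S) B) g)) :
    ∀ ε : ℝ, 0 < ε → Typ fun k ω => c - ε ≤ g k ω := by
  intro ε hε
  by_contra hcon
  have h2 : 0 < ul (S.pr fun k ω => ¬ c - ε ≤ g k ω) := by
    rw [ul_pr_compl]
    have h3 : ul (S.pr fun k ω => c - ε ≤ g k ω) ≤ 1 :=
      ul_le_const (Sp.UB_pr _) (Eventually.of_forall fun k => Sp.pr_le_one _ k)
    rcases h3.lt_or_eq with h4 | h4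
    · linarith
    · exfalso
      apply hcon
      rw [Sp.Typ_iff, ← h4]
      exact ul_tendsto (Sp.UB_pr _)
  have h3 := h _ h2
  have hpos : ∀ᶠ k in UF, 0 < S.pr (fun k ω => ¬ c - ε ≤ g k ω) k := eventually_gt_of_lt_ul (Sp.UB_pr _) h2
  have hU : UB (mn (Sp.im (Pj.id S) fun k ω => ¬ c - ε ≤ g k ω) g) := by
    refine UB_mn (C := C) ?_ ?_
    · filter_upwards [h0] with k hk ω hω
      exact hk ω (FSp.im_supp ((Pj.id S).fp k) _ ω hω)
    · filter_upwards [h1] with k hk ω hω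
      exact hk ω (FSp.im_supp ((Pj.id S).fp k) _ ω hω)
  have h4 : ul (mn (Sp.im (Pj.id S) fun k ω => ¬ c - ε ≤ g k ω) g) ≤ c - ε := by
    refine ul_le_const hU ?_
    filter_upwards [hpos] with k hk
    have h5 : mn (Sp.im (Pj.id S) fun k ω => ¬ c - ε ≤ g k ω) g k ≤
        mn (Sp.im (Pj.id S) fun k ω => ¬ c - ε ≤ g k ω) (fun _ _ => c - ε) k := by
      refine mn_le fun ω hω => ?_
      have h6 := im_ev (F := S.F k) (fun ω => ¬ c - ε ≤ g k ω) hk.ne' rfl hω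
      exact (not_le.1 h6).le
    rwa [mn_const] at h5
  linarith

/-- a slowly shrinking sequence -/
theorem exists_slow (F : ℕ → ℕ → ℝ) {a : ℝ} (h : ∀ m, ∀ᶠ k in UF, a ≤ F m k) : ∃ e : ℕ → ℕ, Tendsto e UF atTop ∧
    ∀ᶠ k in UF, a ≤ F (e k) k := by
  classical
  refine ⟨fun k => Nat.findGreatest (fun m => a ≤ F m k) k, ?_, ?_⟩
  · rw [tendsto_atTop]
    intro m
    have h1 : ∀ᶠ k in UF, m ≤ k := (eventually_ge_atTop m).filter_mono UF_le_atTop
    filter_upwards [h m, h1] with k a1 a2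
    exact Nat.le_findGreatest a2 a1
  · filter_upwards [h 0] with k a1
    exact Nat.findGreatest_spec (P := fun m => a ≤ F m k) (Nat.zero_le k) a1

/-- the growth of the exponents beyond the level `ρ`, lower bound -/
theorem sg_grow {w : ∀ k, (S.F k).Ω → Fin q → ℝ} {ρ b e : ℝ} {k : ℕ} {ω : (S.F k).Ω} {κ : ℕ} (he : 0 ≤ e)
    (hb : ρ + e ≤ b) (h : κ + 1 ≤ (Finset.univ.filter fun j => w k ω j ≤ ρ + e).card) :
    sg 0 w ρ k ω + (κ + 1) * (b - ρ - e) ≤ sg 0 w b k ω := by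
  have h1 : ∑ j : Fin q, (if w k ω j ≤ ρ + e then b - ρ - e else 0) ≤ ∑ j, (max (b - w k ω j) 0 - max (ρ - w k ω j) 0) := by
    refine Finset.sum_le_sum fun j _ => ?_
    by_cases h2 : w k ω j ≤ ρ + e
    · rw [if_pos h2, max_eq_left (by linarith)]
      rcases le_total (ρ - w k ω j) 0 with h3 | h3
      · rw [max_eq_right h3]
        linarith
      · rw [max_eq_left h3]
        linarith
    · rw [if_neg h2]
      have h3 : ρ - w k ω j ≤ b - w k ω j := by linarith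
      exact sub_nonneg.mpr (max_le_max h3 le_rfl)
  rw [← Finset.sum_filter, Finset.sum_const, nsmul_eq_mul, Finset.sum_sub_distrib] at h1
  have h2 : ((κ : ℝ) + 1) * (b - ρ - e) ≤ ((Finset.univ.filter fun j => w k ω j ≤ ρ + e).card : ℝ) * (b - ρ - e) := by
    refine mul_le_mul_of_nonneg_right ?_ (by linarith)
    exact_mod_cast h
  unfold sg
  rw [Nat.cast_zero, zero_mul, zero_mul, zero_add, zero_add]
  linarith

/-- the growth of the exponents beyond the level `ρ`, upper bound -/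
theorem sg_upp {w : ∀ k, (S.F k).Ω → Fin q → ℝ} {ρ x x₀ : ℝ} {k : ℕ} {ω : (S.F k).Ω} {κ : ℕ} (hx : 0 ≤ x)
    (hx₀ : x ≤ x₀) : sg 0 w (ρ + x) k ω ≤ sg 0 w ρ k ω + (κ * x +
      if κ + 1 ≤ (Finset.univ.filter fun j => w k ω j ≤ ρ + x₀).card then q * x else 0) := by
  have h1 : ∑ j, (max (ρ + x - w k ω j) 0 - max (ρ - w k ω j) 0) ≤ ∑ j : Fin q, (if w k ω j ≤ ρ + x₀ then x else 0) := by
    refine Finset.sum_le_sum fun j _ => ?_
    by_cases h2 : w k ω j ≤ ρ + x₀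
    · rw [if_pos h2]
      rcases le_total (ρ + x - w k ω j) 0 with h3 | h3
      · rw [max_eq_right h3]
        have := le_max_right (ρ - w k ω j) 0
        linarith
      · rw [max_eq_left h3]
        have := le_max_left (ρ - w k ω j) 0
        linarith
    · rw [if_neg h2, max_eq_right (by linarith), max_eq_right (by linarith), sub_zero]
  rw [← Finset.sum_filter, Finset.sum_const, nsmul_eq_mul, Finset.sum_sub_distrib] at h1
  have h2 : ((Finset.univ.filter fun j => w k ω j ≤ ρ + x₀).card : ℝ) * x ≤ κ * x +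
      if κ + 1 ≤ (Finset.univ.filter fun j => w k ω j ≤ ρ + x₀).card then (q : ℝ) * x else 0 := by
    by_cases h3 : κ + 1 ≤ (Finset.univ.filter fun j => w k ω j ≤ ρ + x₀).card
    · rw [if_pos h3]
      have h4 : ((Finset.univ.filter fun j => w k ω j ≤ ρ + x₀).card : ℝ) ≤ q := by
        have h5 := Finset.card_le_univ (Finset.univ.filter fun j => w k ω j ≤ ρ + x₀)
        rw [Fintype.card_fin] at h5
        exact_mod_cast h5
      have h5 := mul_le_mul_of_nonneg_right h4 hx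
      have h6 : (0 : ℝ) ≤ κ * x := mul_nonneg (Nat.cast_nonneg κ) hx
      linarith
    · rw [if_neg h3, add_zero]
      refine mul_le_mul_of_nonneg_right ?_ hx
      exact_mod_cast (show (Finset.univ.filter fun j => w k ω j ≤ ρ + x₀).card ≤ κ by omega)
  unfold sg
  rw [Nat.cast_zero, zero_mul, zero_mul, zero_add, zero_add]
  linarith

/-- entropies over a label are at most the entropies -/
theorem H_up1_le (V : ∀ k, Setoid (S.F k).Ω) (Q : S.VV M) (b : ℝ) : H (up1 (Lab.ofZ V) (Q.dg b)) ≤ H (Q.dg b) := by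
  rw [H_hr]
  have h2 : H (Q.dg b) = hr (fun k => fc (Setoid.ker (Q.cellv b k))) (fun _ => ⊥) := by
    have h2 : Q.dg b = cl (Q.bdd b).toInf := io_eq (Q.bdd b)
    rw [h2, Sp.H_cl]
    unfold hr
    congr 1
    funext k
    show _ = Helper31.EC.h (rpI (Q.bdd b).toInf k) ⊥ / (S.F k).n
    rw [h_bot, H_rpI]
  rw [h2]
  refine hr_anti (rpI_Bd (Q.bdd b).toInf) ?_
  have h4 : (fun k => Helper31.EC.h (⊥ : FL (S.F k)) (fc (V k)) : ℕ → ℝ) = fun _ => 0 := by
    funext k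
    exact h_zero bot_le
  show Nul S fun k => Helper31.EC.h (⊥ : FL (S.F k)) (fc (V k))
  rw [h4]
  exact Nul_zero S

open Pool.Agent.Helper87.NJ in
open Pool.Agent.Helper36.AM (STu) in
open Pool.Agent.Helper29.MX (AllE) in
open Pool.Agent.Helper15.FST (gam) in
/-- **[CLB]** -/
theorem row_clb {N : ℕ} (hF : ROW_FDG N) : ROW_CLB N := by
  classical
  intro hst S Ex ρ κ g r s V hE hρ0 hρ1 hPO hup hP hno δ hδ
  obtain ⟨D, G, hD, hfuf⟩ := hPO.full
  obtain ⟨T, p, W, D', o, w₀, hWV, hple, hD', -, hrow⟩ := hF hst S V s.Q D G hD hfuf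
  obtain ⟨f, x⟩ := hrow 0 N (zero_add N) fun ε hε =>
    Sp.Typ.mono (Typ_true (S := T)) (Eventually.of_forall fun k ω _ _ j => j.elim0)
  set w : ∀ k, (T.F k).Ω → Fin N → ℝ := fun k ω j => w₀ k ω (Pool.Agent.Helper76.THK.e00 (zero_add N) (Sum.inr j)) with hw
  set c : ℝ := N * ρ - gam Ex ρ with hc
  have hN : (0 : ℝ) ≤ N := Nat.cast_nonneg N
  -- the exponents at the level `ρ`
  have hmean : ∀ B : ∀ k, (T.F k).Ω → Prop, 0 < ul (T.pr B) → c ≤ ul (mn (Sp.im (Pj.id T) B) (sg 0 w ρ)) := by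
    intro B hB
    have h1 := hP T p B hB ρ hρ0 hρ1.le
    have h2 : pf Ex ρ κ ρ = c := if_pos le_rfl
    rw [h2] at h1
    have y1 := rowsF_im (zero_add N) hD' x (Pj.id T) B hB
    have y2 := Pool.Agent.Helper81.CPY.ple_im (Pj.id T) B hB hple
    have y3 : PLe (S := Sp.im (Pj.id T) B) (fun k => fc (W k)) (fun k => fc ((evP p B).pb V k)) := y2
    have y4 : (evP p B).vv (s.im p B hB).Q = (p.vv s.Q).im (Pj.id T) B := rfl
    rw [← y4] at y1
    have h3 := prf (evP p B) (Q := (s.im p B hB).Q) (V := V) (W := W) hWV y3 (zero_add N) hD' y1 hρ0 hρ1.le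
    rw [h3] at h1
    exact h1
  have htyp := typ_of_mean (S := T) (g := sg 0 w ρ) (Eventually.of_forall fun k ω _ => sg_nonneg hρ0 k ω)
    (sg_le x.w01 hρ1.le) hmean
  have hρc : ul (mn T (sg 0 w ρ)) ≤ c := by
    have h1 := prf p (Q := s.Q) (V := V) (W := W) hWV hple (zero_add N) hD' x hρ0 hρ1.le
    rw [← h1]
    have h2 : ∀ b : ℝ, 0 ≤ b → b ≤ ρ → H (s.Q.dg b) ≤ N * b - gam Ex b :=
      Pool.Agent.Helper52.MW.AllE_self (P := fun _ t _ => ∀ b : ℝ, 0 ≤ b → b ≤ ρ → H (t.Q.dg b) ≤ N * b - gam Ex b)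
        (R := V) hup
    exact (H_up1_le V s.Q ρ).trans (h2 ρ hρ0 le_rfl)
  set F : ℕ → ℕ → ℝ := fun m k => (T.F k).pb fun ω =>
    κ + 1 ≤ (Finset.univ.filter fun j => w k ω j ≤ ρ + 1 / ((m : ℝ) + 1)).card with hFd
  set δ' : ℝ := δ / (N + 1) with hδ'
  have hδ0 : 0 < δ' := by positivity
  by_cases hcase : ∃ m, ul (F m) ≤ δ'
  · obtain ⟨m, hm⟩ := hcase
    refine ⟨1 / ((m : ℝ) + 1), by positivity, fun y hy0 hy hy1 => ?_⟩
    have h1 := prf p (Q := s.Q) (V := V) (W := W) hWV hple (zero_add N) hD' x (b := ρ + y) (by linarith) hy1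
    rw [h1]
    have hU1 := UB_sg (v := 0) x.w01 (b := ρ + y) (by linarith) hy1
    have hU0 := UB_sg (v := 0) x.w01 hρ0 hρ1.le
    have hUF : UB (F m) := UB_pr (S := T) fun k ω =>
      κ + 1 ≤ (Finset.univ.filter fun j => w k ω j ≤ ρ + 1 / ((m : ℝ) + 1)).card
    have h2 : ul (mn T (sg 0 w (ρ + y))) ≤ ul (fun k => mn T (sg 0 w ρ) k + (κ * y + F m k * (N * y))) := by
      refine ul_mono hU1 (hU0.add ((UB_const _).add (hUF.mul (UB_const _)))) (Eventually.of_forall fun k => ?_)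
      have e1 : F m k * (N * y) = mn T (fun k ω => if κ + 1 ≤ (Finset.univ.filter fun j =>
          w k ω j ≤ ρ + 1 / ((m : ℝ) + 1)).card then (N : ℝ) * y else 0) k := (mn_ind (S := T) (fun k ω =>
            κ + 1 ≤ (Finset.univ.filter fun j => w k ω j ≤ ρ + 1 / ((m : ℝ) + 1)).card) ((N : ℝ) * y) k).symm
      have e2 : (κ : ℝ) * y = mn T (fun _ _ => (κ : ℝ) * y) k := (mn_const _ k).symm
      rw [e1, e2, ← mn_add, ← mn_add]
      exact mn_le fun ω _ => sg_upp hy0.le hy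
    rw [ul_add hU0 ((UB_const _).add (hUF.mul (UB_const _))), ul_add (UB_const _) (hUF.mul (UB_const _)),
      ul_mul hUF (UB_const _), ul_const, ul_const] at h2
    have h3 : ul (F m) * (N * y) ≤ δ' * (N * y) := mul_le_mul_of_nonneg_right hm (mul_nonneg hN hy0.le)
    have h4 : δ' * N ≤ δ := by
      rw [hδ', div_mul_eq_mul_div, div_le_iff₀ (by linarith)]
      nlinarith
    nlinarith
  · exfalso
    have hcase' : ∀ m, ∀ᶠ k in UF, δ' ≤ F m k := fun m => by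
      have h1 : δ' < ul (F m) := not_le.mp fun h => hcase ⟨m, h⟩
      exact (eventually_gt_of_lt_ul (UB_pr (S := T) fun k ω =>
        κ + 1 ≤ (Finset.univ.filter fun j => w k ω j ≤ ρ + 1 / ((m : ℝ) + 1)).card) h1).mono fun k hk => hk.le
    obtain ⟨e, he, hev⟩ := exists_slow F hcase'
    set B : ∀ k, (T.F k).Ω → Prop := fun k ω =>
      κ + 1 ≤ (Finset.univ.filter fun j => w k ω j ≤ ρ + 1 / ((e k : ℝ) + 1)).card with hBd
    have hB : 0 < ul (T.pr B) := hδ0.trans_le (const_le_ul (UB_pr B) hev)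
    apply hno T p B hB
    intro T' p' A' hA' b hb0 hb1
    by_cases hbρ : b ≤ ρ
    · have h1 : pf Ex ρ ((κ : ℝ) + 1) b = pf Ex ρ κ b := by
        unfold pf
        rw [if_pos hbρ, if_pos hbρ]
      rw [h1]
      have h2 : AllE (fun _ t R' => ∀ b : ℝ, 0 ≤ b → b ≤ 1 → pf Ex ρ κ b ≤ H (up1 (Lab.ofZ R') (t.Q.dg b))) S s V := hP
      exact Pool.Agent.Helper52.MW.AllE_im h2 p B hB T' p' A' hA' b hb0 hb1
    · have h1 : pf Ex ρ ((κ : ℝ) + 1) b = c + (κ + 1) * (b - ρ) := by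
        unfold pf
        rw [if_neg hbρ]
      rw [h1]
      have hbρ' : 0 < b - ρ := sub_pos.mpr (not_le.mp hbρ)
      obtain ⟨U, qU, A, hpr, hlaw⟩ := exists_fib p B p' A'
      have hA : 0 < ul (U.pr A) := by
        have h2 : ul (U.pr A) = ul (T'.pr A') := ul_congr (Eventually.of_forall hpr)
        rw [h2]
        exact hA'
      have x1 := rowsF_im (zero_add N) hD' x (Pj.id T) B hB
      have x2 := rowsF_im (zero_add N) hD' x1 qU A hA
      have y2 := Pool.Agent.Helper81.CPY.ple_im qU A hA (Pool.Agent.Helper81.CPY.ple_im (Pj.id T) B hB hple)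
      have y3 : PLe (S := Sp.im qU A) (fun k => fc (W k)) (fun k => fc ((fibP p qU A hlaw).pb V k)) := y2
      have y4 : (fibP p qU A hlaw).vv ((s.im p B hB).im p' A' hA').Q = ((p.vv s.Q).im (Pj.id T) B).im qU A := rfl
      have y1 := x2
      rw [← y4] at y1
      have h3 := prf (fibP p qU A hlaw) (Q := ((s.im p B hB).im p' A' hA').Q) (V := V) (W := W) hWV y3 (zero_add N) hD'
        y1 hb0 hb1
      rw [h3]
      refine mean_of_typ (S := Sp.im qU A) (g := sg 0 w b) (C := (0 : ℕ) + N)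
        (Eventually.of_forall fun k ω _ => sg_nonneg hb0 k ω) (sg_le x2.w01 hb1) fun ε hε => ?_
      have t1 := Pool.Agent.Helper81.CPY.typ_im qU A hA
        (Pool.Agent.Helper81.CPY.typ_im (Pj.id T) B hB (htyp (ε / 2) (half_pos hε)))
      refine Sp.Typ.mono t1 ?_
      have hlim : Tendsto (fun k => 1 / ((e k : ℝ) + 1)) UF (𝓝 0) :=
        tendsto_one_div_add_atTop_nhds_zero_nat.comp he
      have hκ : (0 : ℝ) < κ + 1 := by positivity
      have hpos : ∀ᶠ k in UF, 0 < T.pr B k := eventually_gt_of_lt_ul (Sp.UB_pr _) hB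
      filter_upwards [hlim.eventually (gt_mem_nhds hbρ'), hlim.eventually (gt_mem_nhds (show 0 < ε / 2 / (κ + 1) by
        positivity)), hpos] with k a1 a2 a3 ω hω a4
      have h4 : B k ω := im_ev (F := T.F k) (B k) a3.ne' rfl (FSp.im_supp (qU.fp k) (A k) ω hω)
      have h5 := sg_grow (w := w) (ρ := ρ) (b := b) (e := 1 / ((e k : ℝ) + 1)) (k := k) (ω := ω) (κ := κ) (by positivity)
        (by linarith) h4
      rw [lt_div_iff₀ hκ] at a2
      have h6 : c - ε / 2 ≤ sg 0 w ρ k ω := a4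
      have h7 : ((κ : ℝ) + 1) * (b - ρ - 1 / ((e k : ℝ) + 1)) = (κ + 1) * (b - ρ) - 1 / ((e k : ℝ) + 1) * (κ + 1) := by
        ring
      rw [h7] at h5
      show c + (κ + 1) * (b - ρ) - ε ≤ sg 0 w b k ω
      linarith

end

end Pool.Agent.Helper61.NJ
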